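import Pool.Agent.Lib.DS.G.Spec

/-!
# DS, part G, module Cop: coprimality in `O`
-/

set_option autoImplicit false

open scoped Pointwise

noncomputable section

namespace Pool.Agent.DS.G

open Pool.Agent.MuZ Pool.Agent.FW Pool.Agent.DN
open Pool.Agent.DI (io ofC io_inj exists_io io_ofC ofC_io VP MP UP TP ex)

variable {k t : ℕ}

private theorem Cop_mul_left (v u : OO k t) (M : ℕ) : Cop (v * u) M ↔ Cop v M ∧ Cop u M := by
  unfold Cop
  rw [Nm_mul, IsCoprime.mul_left_iff]

private theorem Cop_mul_right (v : OO k t) (M M' : ℕ) : Cop v (M * M') ↔ Cop v M ∧ Cop v M' := by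
  unfold Cop
  rw [Nat.cast_mul, IsCoprime.mul_right_iff]

private theorem Cop_pow_right (v : OO k t) (M n : ℕ) (h : Cop v M) : Cop v (M ^ n) := by
  unfold Cop at *
  rw [Nat.cast_pow]
  exact h.pow_right

/-- **Cop.** Coprimality, inverses, odd lifts. -/
theorem tCop : S_Cop := by
  intro k t _
  have hn : ∀ v : OO k t, Cop v 2 ↔ ¬ (2 : ℤ) ∣ Nm v := by
    intro v
    unfold Cop
    constructor
    · intro h h2
      have h3 := h.isUnit_of_dvd' h2 (dvd_refl _)
      exact absurd (Int.isUnit_iff.1 h3) (by norm_num)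
    · intro h
      have h3 := (Prime.coprime_iff_not_dvd Int.prime_two).2 h
      exact_mod_cast h3.symm
  have hd : ∀ v : OO k t, Cop v 2 → ¬ (2 : OO k t) ∣ v := by
    rintro v hv ⟨u, rfl⟩
    refine (hn _).1 hv ?_
    rw [Nm_mul]
    have h7 : Nm (2 : OO k t) = 4 := by
      have := Nm_nat (n := k) (t := t) 2
      simpa using this
    rw [h7]
    exact ⟨2 * Nm u, by ring⟩
  refine ⟨Cop_mul_left, Cop_mul_right, hn, hd, ?_, ?_, ?_, ?_, ?_⟩
  · intro v M hM hv
    obtain ⟨u, hu, hd⟩ := cop_inv hv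
    rcases eq_or_ne u 0 with rfl | h0
    · refine ⟨1, one_ne_zero, cop_one M, ?_⟩
      rw [mul_zero, zero_sub, dvd_neg] at hd
      exact (isUnit_of_dvd_one hd).dvd
    · exact ⟨u, h0, hu, hd⟩
  · intro v u M hv hd
    obtain ⟨u', -, hu'⟩ := cop_inv hv
    have e : u = u' * (v * u) - (v * u' - 1) * u := by ring
    rw [e]
    exact dvd_sub (Dvd.dvd.mul_left hd _) (Dvd.dvd.mul_right hu' _)
  · intro v f hf hv
    obtain ⟨m, hm⟩ := hf
    have e : v + (f : OO k t) * (1 - v) - 1 = 2 * (m * (1 - v)) := by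
      rw [hm]
      push_cast
      ring
    have h1 : (2 : OO k t) ∣ v + (f : OO k t) * (1 - v) - 1 := ⟨_, e⟩
    have h2 : Cop (v + (f : OO k t) * (1 - v)) 2 := by
      refine cop_congr (a := 1) ?_ (cop_one 2)
      have e3 : 1 - (v + (f : OO k t) * (1 - v)) = -(v + (f : OO k t) * (1 - v) - 1) := by ring
      rw [e3]
      exact (dvd_neg).2 (by exact_mod_cast h1)
    refine ⟨v + f * (1 - v), ?_, ?_, h1, ?_⟩
    · intro h0
      rw [h0] at h2
      exact hd _ h2 (dvd_zero _)
    · rw [add_sub_cancel_left]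
      exact Dvd.intro _ rfl
    · rw [Cop_mul_right]
      refine ⟨h2, ?_⟩
      refine cop_congr (a := v) ?_ hv
      have e2 : v - (v + (f : OO k t) * (1 - v)) = f * (v - 1) := by ring
      rw [e2]
      exact Dvd.intro _ rfl
  · intro f N v hN hv
    rw [Cop_mul_right] at hv ⊢
    refine ⟨cop_dvd hv.2 ?_, hv.1⟩
    exact dvd_pow_self 2 (by omega)
  · intro f N v hv
    rw [Cop_mul_right] at hv ⊢
    exact ⟨hv.2, Cop_pow_right v 2 N hv.1⟩

end Pool.Agent.DS.G
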