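import Pool.Agent.Lib.DS.G.Spec

/-!
# DS, part G, module DSx: systems of representatives modulo `H_f`
-/

set_option autoImplicit false

open scoped Pointwise

noncomputable section

namespace Pool.Agent.DS.G

open Pool.Agent.MuZ Pool.Agent.FW Pool.Agent.DN

/-- Choice of representatives in a finite set. -/
private theorem DSx_rep {α : Type} (Q : α → Prop) (r : α → α → Prop)
    (hr : ∀ x, Q x → r x x) (hs : ∀ x y, Q x → Q y → r x y → r y x) (Y : Finset α)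
    (hY : ∀ y ∈ Y, Q y) :
    ∃ T : Finset α, T ⊆ Y ∧ (∀ y ∈ Y, ∃ t ∈ T, r t y ∨ ∃ y' ∈ Y, r t y' ∧ r y' y) ∧
      ∀ t ∈ T, ∀ t' ∈ T, r t t' → t = t' := by
  classical
  induction Y using Finset.induction_on with
  | empty => exact ⟨∅, Finset.Subset.refl _, by simp, by simp⟩
  | insert y Y hy ih =>
    obtain ⟨T, h1, h2, h3⟩ := ih fun z hz => hY z (Finset.mem_insert_of_mem hz)
    have hQy : Q y := hY y (Finset.mem_insert_self _ _)
    by_cases h : ∃ t ∈ T, r t y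
    · refine ⟨T, h1.trans (Finset.subset_insert _ _), ?_, h3⟩
      intro z hz
      rcases Finset.mem_insert.1 hz with rfl | hz
      · obtain ⟨t, ht, htz⟩ := h
        exact ⟨t, ht, Or.inl htz⟩
      · obtain ⟨t, ht, h4⟩ := h2 z hz
        refine ⟨t, ht, ?_⟩
        rcases h4 with h4 | ⟨y', hy', h5⟩
        · exact Or.inl h4
        · exact Or.inr ⟨y', Finset.mem_insert_of_mem hy', h5⟩
    · refine ⟨insert y T, Finset.insert_subset_insert _ h1, ?_, ?_⟩
      · intro z hz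
        rcases Finset.mem_insert.1 hz with rfl | hz
        · exact ⟨z, Finset.mem_insert_self _ _, Or.inl (hr z hQy)⟩
        · obtain ⟨t, ht, h4⟩ := h2 z hz
          refine ⟨t, Finset.mem_insert_of_mem ht, ?_⟩
          rcases h4 with h4 | ⟨y', hy', h5⟩
          · exact Or.inl h4
          · exact Or.inr ⟨y', Finset.mem_insert_of_mem hy', h5⟩
      · intro t ht t' ht' hrr
        rcases Finset.mem_insert.1 ht with e | ht
        · rcases Finset.mem_insert.1 ht' with e' | ht'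
          · rw [e, e']
          · exfalso
            rw [e] at hrr
            exact h ⟨t', ht', hs _ _ hQy (hY _ (Finset.mem_insert_of_mem (h1 ht'))) hrr⟩
        · rcases Finset.mem_insert.1 ht' with e' | ht'
          · exfalso
            rw [e'] at hrr
            exact h ⟨t, ht, hrr⟩
          · exact h3 t ht t' ht' hrr

/-- Representatives for an equivalence relation. -/
private theorem DSx_rep' {α : Type} (Q : α → Prop) (r : α → α → Prop)
    (hr : ∀ x, Q x → r x x) (hs : ∀ x y, Q x → Q y → r x y → r y x)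
    (ht : ∀ x y z, Q x → Q y → Q z → r x y → r y z → r x z) (Y : Finset α)
    (hY : ∀ y ∈ Y, Q y) :
    ∃ T : Finset α, T ⊆ Y ∧ (∀ y ∈ Y, ∃ t ∈ T, r t y) ∧ ∀ t ∈ T, ∀ t' ∈ T, r t t' → t = t' := by
  obtain ⟨T, h1, h2, h3⟩ := DSx_rep Q r hr hs Y hY
  refine ⟨T, h1, ?_, h3⟩
  intro y hy
  obtain ⟨t, htT, h4⟩ := h2 y hy
  refine ⟨t, htT, ?_⟩
  rcases h4 with h4 | ⟨y', hy', h5, h6⟩
  · exact h4
  · exact ht _ _ _ (hY _ (h1 htT)) (hY _ hy') (hY _ hy) h5 h6

theorem tDSx : S_DSx := by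
  classical
  intro hO2 hO6 hO7 hO9 hCop hHNf hRUp k t _ f N hf hf3 hN
  have hf0 : 0 < f := hf.pos
  have hff : 0 < 2 * f := by omega
  obtain ⟨-, -, -, o2nm, o2mul, o2bot, -, -⟩ := hO2 k t
  obtain ⟨o6mul, o6N, o6co, o6sp, -⟩ := hO6 k t
  obtain ⟨rfl7, sym7, tra7, mul7, -, -, -, sp7, -, -, R, hR⟩ := hO7 k t (2 * f) hff
  obtain ⟨-, -, -, -, cinv, -, -, -, -⟩ := hCop k t
  obtain ⟨⟨hf1, -, -, -⟩, hfmul, -, -, hNc, hfinv, -, hfc, -, -, -⟩ := hHNf k t f N hN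
  have e1 : sp (1 : OO k t) = ⊤ := Ideal.span_singleton_one
  have spm : ∀ v u : OO k t, sp v * sp u = sp (v * u) := fun v u =>
    Ideal.span_singleton_mul_span_singleton v u
  have tm : ∀ a : Ideal (OO k t), ⊤ * a = a := fun a => Ideal.top_mul a
  have sp7' : ∀ v u : OO k t, v ≠ 0 → u ≠ 0 → Cop v (2 * f) → Cop u (2 * f) →
      ((2 * f : ℕ) : OO k t) ∣ v - u → Ray (2 * f) (sp v) (sp u) := by
    intro v u h1 h2 h3 h4 h5
    refine (sp7 v u h1 h2 h3 h4).2 ⟨1, Nm_one, ?_⟩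
    rw [one_mul]
    exact h5
  have hHPsp : ∀ v : OO k t, v ≠ 0 → Hf f v → HP f (sp v) := fun v hv hh => ⟨v, hv, hh, rfl7 _⟩
  -- for every class of `R` which contains an ideal with norm `± 1` choose one
  have hc : ∀ b : Ideal (OO k t), ∃ c : Ideal (OO k t), (∃ c', CN f N c' ∧ Ray (2 * f) b c') →
      CN f N c ∧ Ray (2 * f) b c := by
    intro b
    by_cases h : ∃ c', CN f N c' ∧ Ray (2 * f) b c'
    · obtain ⟨c', h1, h2⟩ := h
      exact ⟨c', fun _ => ⟨h1, h2⟩⟩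
    · exact ⟨⊤, fun h' => absurd h' h⟩
  choose c hc using hc
  obtain ⟨D, h1, h2, h3⟩ := DSx_rep' (fun b : Ideal (OO k t) => b ≠ ⊥ ∧ PrI b (2 * f))
    (fun b b' : Ideal (OO k t) => ∃ a : Ideal (OO k t), HP f a ∧ Ray (2 * f) b' (a * b))
    (fun x _ => ⟨sp 1, hHPsp 1 one_ne_zero hf1, by rw [e1, tm]; exact rfl7 _⟩)
    (fun x y _ _ h => by
      obtain ⟨a, ⟨v, hv0, hv, hav⟩, hr⟩ := h
      obtain ⟨u, hu0, huc, huv⟩ := cinv v (2 * f) hff (hfc v hv)
      have hu : Hf f u := hfinv v u hv huv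
      refine ⟨sp u, hHPsp u hu0 hu, ?_⟩
      -- `sp u * y ~ sp u * (a * x) ~ sp u * (sp v * x) = sp (u v) * x ~ x`
      have s1 : Ray (2 * f) (sp u * y) (sp u * (a * x)) := mul7 _ _ _ _ (rfl7 _) hr
      have s2 : Ray (2 * f) (sp u * (a * x)) (sp u * (sp v * x)) :=
        mul7 _ _ _ _ (rfl7 _) (mul7 _ _ _ _ hav (rfl7 _))
      have s3 : Ray (2 * f) (sp u * (sp v * x)) x := by
        rw [← mul_assoc, spm]
        have h0 : u * v ≠ 0 := mul_ne_zero hu0 hv0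
        have s4 : Ray (2 * f) (sp (u * v)) (sp 1) :=
          sp7' _ _ h0 one_ne_zero (cop_mul huc (hfc v hv)) (cop_one _)
            (by rw [mul_comm u v]; exact huv)
        have s5 := mul7 _ _ _ _ s4 (rfl7 x)
        rwa [e1, tm] at s5
      exact sym7 _ _ (tra7 _ _ _ s1 (tra7 _ _ _ s2 s3)))
    (fun x y z _ _ _ h h' => by
      obtain ⟨a, ⟨v, hv0, hv, hav⟩, hr⟩ := h
      obtain ⟨a', ⟨v', hv0', hv', hav'⟩, hr'⟩ := h'
      refine ⟨a' * a, ⟨v' * v, mul_ne_zero hv0' hv0, hfmul _ _ hv' hv, ?_⟩, ?_⟩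
      · have s1 := mul7 _ _ _ _ hav' hav
        change Ray (2 * f) (a' * a) (sp v' * sp v) at s1
        rw [spm] at s1
        exact s1
      · have s1 : Ray (2 * f) (a' * y) (a' * (a * x)) := mul7 _ _ _ _ (rfl7 _) hr
        have s2 := tra7 _ _ _ hr' s1
        rwa [← mul_assoc] at s2)
    ((R.filter (fun b => ∃ c', CN f N c' ∧ Ray (2 * f) b c')).image c) (by
      intro y hy
      obtain ⟨b, hb, rfl⟩ := Finset.mem_image.1 hy
      obtain ⟨h4, -⟩ := hc b (Finset.mem_filter.1 hb).2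
      exact ⟨h4.1, h4.2.1⟩)
  refine ⟨D, ?_, ?_, h3⟩
  · intro x hx
    obtain ⟨b, hb, rfl⟩ := Finset.mem_image.1 (h1 hx)
    exact (hc b (Finset.mem_filter.1 hb).2).1
  · intro b hb
    obtain ⟨b', hb', hbb'⟩ := hR.ex b hb.1 hb.2.1
    have h4 : ∃ c', CN f N c' ∧ Ray (2 * f) b' c' := ⟨b, hb, sym7 _ _ hbb'⟩
    obtain ⟨t', ht, a, ha, hr⟩ := h2 (c b')
      (Finset.mem_image_of_mem c (Finset.mem_filter.2 ⟨hb', h4⟩))
    exact ⟨t', ht, a, ha, tra7 _ _ _ (tra7 _ _ _ hbb' (hc b' h4).2) hr⟩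

end Pool.Agent.DS.G
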