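import Pool.Agent.Lib.DS.G.Spec

/-!
# DS, part G, module GRm (helper86, after DK/G/GRm of helper80): systems of representatives
-/

set_option autoImplicit false

open scoped Pointwise

noncomputable section

namespace Pool.Agent.DS.G

open Pool.Agent.MuZ Pool.Agent.FW Pool.Agent.DN

/-- Choice of representatives in a finite set. -/
private theorem GRm_rep {α : Type} (Q : α → Prop) (r : α → α → Prop)
    (hr : ∀ x, Q x → r x x) (hs : ∀ x y, Q x → Q y → r x y → r y x) (Y : Finset α)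
    (hY : ∀ y ∈ Y, Q y) :
    ∃ T : Finset α, T ⊆ Y ∧ (∀ y ∈ Y, ∃ t ∈ T, r t y ∨ ∃ y' ∈ Y, r t y' ∧ r y' y) ∧
      ∀ t ∈ T, ∀ t' ∈ T, r t t' → t = t' := by
  classical
  induction Y using Finset.induction_on with
  | empty => exact ⟨∅, Finset.Subset.refl _, by simp, by simp⟩
  | insert y Y hy ih =>
    obtain ⟨T, h1, h2, h3⟩ := ih fun z hz => hY z (Finset.mem_insert_of_mem hz)
    have hQy : Q y := hY y (Finset.mem_insert_self _ _)
    by_cases h : ∃ t ∈ T, r t y
    · refine ⟨T, h1.trans (Finset.subset_insert _ _), ?_, h3⟩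
      intro z hz
      rcases Finset.mem_insert.1 hz with rfl | hz
      · obtain ⟨t, ht, htz⟩ := h
        exact ⟨t, ht, Or.inl htz⟩
      · obtain ⟨t, ht, h4⟩ := h2 z hz
        refine ⟨t, ht, ?_⟩
        rcases h4 with h4 | ⟨y', hy', h5⟩
        · exact Or.inl h4
        · exact Or.inr ⟨y', Finset.mem_insert_of_mem hy', h5⟩
    · refine ⟨insert y T, Finset.insert_subset_insert _ h1, ?_, ?_⟩
      · intro z hz
        rcases Finset.mem_insert.1 hz with rfl | hz
        · exact ⟨z, Finset.mem_insert_self _ _, Or.inl (hr z hQy)⟩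
        · obtain ⟨t, ht, h4⟩ := h2 z hz
          refine ⟨t, Finset.mem_insert_of_mem ht, ?_⟩
          rcases h4 with h4 | ⟨y', hy', h5⟩
          · exact Or.inl h4
          · exact Or.inr ⟨y', Finset.mem_insert_of_mem hy', h5⟩
      · intro t ht t' ht' hrr
        rcases Finset.mem_insert.1 ht with e | ht
        · rcases Finset.mem_insert.1 ht' with e' | ht'
          · rw [e, e']
          · exfalso
            rw [e] at hrr
            exact h ⟨t', ht', hs _ _ hQy (hY _ (Finset.mem_insert_of_mem (h1 ht'))) hrr⟩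
        · rcases Finset.mem_insert.1 ht' with e' | ht'
          · exfalso
            rw [e'] at hrr
            exact h ⟨t, ht, hrr⟩
          · exact h3 t ht t' ht' hrr

/-- Representatives for an equivalence relation. -/
private theorem GRm_rep' {α : Type} (Q : α → Prop) (r : α → α → Prop)
    (hr : ∀ x, Q x → r x x) (hs : ∀ x y, Q x → Q y → r x y → r y x)
    (ht : ∀ x y z, Q x → Q y → Q z → r x y → r y z → r x z) (Y : Finset α)
    (hY : ∀ y ∈ Y, Q y) :
    ∃ T : Finset α, T ⊆ Y ∧ (∀ y ∈ Y, ∃ t ∈ T, r t y) ∧ ∀ t ∈ T, ∀ t' ∈ T, r t t' → t = t' := by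
  obtain ⟨T, h1, h2, h3⟩ := GRm_rep Q r hr hs Y hY
  refine ⟨T, h1, ?_, h3⟩
  intro y hy
  obtain ⟨t, htT, h4⟩ := h2 y hy
  refine ⟨t, htT, ?_⟩
  rcases h4 with h4 | ⟨y', hy', h5, h6⟩
  · exact h4
  · exact ht _ _ _ (hY _ (h1 htT)) (hY _ hy') (hY _ hy) h5 h6

theorem tGRm : S_GRm := by
  classical
  intro hHNf k t _ f N hf hf3 hN
  have hf0 : 0 < f := hf.pos
  obtain ⟨-, -, -, -, hNc, -, -, -, -, -, -⟩ := hHNf k t f N hN
  set M : ℕ := f * 2 ^ N with hM
  have hM0 : 0 < M := by positivity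
  set W : Finset (OO k t) := (Finset.range (2 * M) ×ˢ Finset.range (2 * M)).image
    (fun p : ℕ × ℕ => (⟨(p.1 : ℤ), (p.2 : ℤ)⟩ : OO k t)) with hW
  have hcov : ∀ v : OO k t, HN f N v →
      ∃ u ∈ W.filter (fun u => HN f N u), (M : OO k t) ∣ v - u := by
    intro v hv
    set u : OO k t := ⟨v.re % (2 * M : ℕ), v.im % (2 * M : ℕ)⟩ with hu
    have hd : ((2 * M : ℕ) : OO k t) ∣ v - u := by
      rw [nat_dvd_iff, QuadraticAlgebra.re_sub, QuadraticAlgebra.im_sub]
      exact ⟨Int.dvd_self_sub_emod, Int.dvd_self_sub_emod⟩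
    have hdM : (M : OO k t) ∣ v - u := by
      refine dvd_trans ?_ hd
      exact_mod_cast Nat.cast_dvd_cast (α := OO k t) (Dvd.intro_left 2 rfl : M ∣ 2 * M)
    have h2M : (0 : ℤ) < (2 * M : ℕ) := by exact_mod_cast (by omega : 0 < 2 * M)
    refine ⟨u, ?_, hdM⟩
    rw [Finset.mem_filter]
    refine ⟨?_, ?_⟩
    · rw [hW, Finset.mem_image]
      refine ⟨((v.re % (2 * M : ℕ)).toNat, (v.im % (2 * M : ℕ)).toNat), ?_, ?_⟩
      · rw [Finset.mem_product, Finset.mem_range, Finset.mem_range]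
        have a1 := Int.emod_nonneg v.re h2M.ne'
        have a2 := Int.emod_lt_of_pos v.re h2M
        have a3 := Int.emod_nonneg v.im h2M.ne'
        have a4 := Int.emod_lt_of_pos v.im h2M
        constructor
        · show (v.re % (2 * M : ℕ)).toNat < 2 * M
          omega
        · show (v.im % (2 * M : ℕ)).toNat < 2 * M
          omega
      · have a1 := Int.toNat_of_nonneg (Int.emod_nonneg v.re h2M.ne')
        have a3 := Int.toNat_of_nonneg (Int.emod_nonneg v.im h2M.ne')
        exact ext' a1 a3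
    · refine hNc v u ?_ hv
      rw [← neg_sub]
      exact (dvd_neg).2 hdM
  obtain ⟨T, h1, h2, h3⟩ := GRm_rep' (fun _ : OO k t => True)
    (fun v u : OO k t => UR (M : OO k t) v u) (fun x _ => UR.refl _ _) (fun x y _ _ h => h.symm)
    (fun x y z _ _ _ h h' => h.trans h') (W.filter (fun u => HN f N u)) (fun _ _ => trivial)
  refine ⟨T, isRep_iff.2 ⟨fun h hh => (Finset.mem_filter.1 (h1 hh)).2, ?_, h3⟩⟩
  intro v hv
  obtain ⟨u, hu, hvu⟩ := hcov v hv
  obtain ⟨t', ht, htu⟩ := h2 u hu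
  exact ⟨t', ht, (UR.of_dvd hvu).trans htu.symm⟩

end Pool.Agent.DS.G
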