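import Pool.Agent.Lib.DS.G.Spec

/-!
# DS, part G, module HNf: the groups `H_f`, `H_N`
-/

set_option autoImplicit false

open scoped Pointwise

noncomputable section

namespace Pool.Agent.DS.G

open Pool.Agent.MuZ Pool.Agent.FW Pool.Agent.DN
open Pool.Agent.DI (io ofC io_inj exists_io io_ofC ofC_io VP MP UP TP ex)

variable {k t : ℕ}

private theorem nmod2 (v u : OO k t) (N : ℕ) (h : ((2 ^ N : ℕ) : OO k t) ∣ v - u) :
    (2 : ℤ) ^ N ∣ Nm v - Nm u := by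
  have := Nm_congr h
  exact_mod_cast this

private theorem nmneg : Nm (-1 : OO k t) = 1 := by rw [Nm_neg, Nm_one]

private theorem pw_one {a v : OO k t} (j : ℕ) (h : a ∣ v - 1) : a ∣ v ^ j - 1 := by
  have := sub_dvd_pow_sub_pow v 1 j
  rw [one_pow] at this
  exact h.trans this

private theorem hmul (f : ℕ) (v u : OO k t) (hv : Hf f v) (hu : Hf f u) : Hf f (v * u) := by
  obtain ⟨hv1, j, hj⟩ := hv
  obtain ⟨hu1, l, hl⟩ := hu
  refine ⟨cop_mul hv1 hu1, j + l, ?_⟩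
  have h1 : (v * u) ^ 2 ^ (j + l) - 1 =
      ((v ^ 2 ^ j) ^ 2 ^ l - 1) * (u ^ 2 ^ l) ^ 2 ^ j + ((u ^ 2 ^ l) ^ 2 ^ j - 1) := by
    rw [mul_pow, pow_add, pow_mul, mul_comm (2 ^ j) (2 ^ l), pow_mul u]
    ring
  rw [h1]
  exact dvd_add (Dvd.dvd.mul_right (pw_one _ hj) _) (pw_one _ hl)

private theorem pm_mul {n a b : ℤ} (ha : n ∣ a - 1 ∨ n ∣ a + 1) (hb : n ∣ b - 1 ∨ n ∣ b + 1) :
    n ∣ a * b - 1 ∨ n ∣ a * b + 1 := by
  rcases ha with ⟨x, hx⟩ | ⟨x, hx⟩ <;> rcases hb with ⟨y, hy⟩ | ⟨y, hy⟩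
  · refine Or.inl ⟨x * b + y, ?_⟩
    linear_combination b * hx + hy
  · refine Or.inr ⟨x * b + y, ?_⟩
    linear_combination b * hx + hy
  · refine Or.inr ⟨x * b - y, ?_⟩
    linear_combination b * hx - hy
  · refine Or.inl ⟨x * b - y, ?_⟩
    linear_combination b * hx - hy

private theorem pm_inv {n a b : ℤ} (ha : n ∣ a - 1 ∨ n ∣ a + 1) (hb : n ∣ a * b - 1) :
    n ∣ b - 1 ∨ n ∣ b + 1 := by
  obtain ⟨y, hy⟩ := hb
  rcases ha with ⟨x, hx⟩ | ⟨x, hx⟩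
  · refine Or.inl ⟨y - x * b, ?_⟩
    linear_combination hy - b * hx
  · refine Or.inr ⟨x * b - y, ?_⟩
    linear_combination b * hx - hy

private theorem hmulN (f N : ℕ) (v u : OO k t) (hv : HN f N v) (hu : HN f N u) :
    HN f N (v * u) := by
  refine ⟨hmul f v u hv.1 hu.1, ?_⟩
  rw [Nm_mul]
  exact pm_mul hv.2 hu.2

private theorem neg_dvd {a v u : OO k t} (h : a ∣ v - u) : a ∣ u - v := by
  rw [← neg_sub]
  exact (dvd_neg).2 h

private theorem hcongr (f : ℕ) (v u : OO k t) (h : ((2 * f : ℕ) : OO k t) ∣ u - v) (hv : Hf f v) :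
    Hf f u := by
  obtain ⟨hv1, j, hj⟩ := hv
  refine ⟨cop_congr (neg_dvd h) hv1, j, ?_⟩
  have h1 : u ^ 2 ^ j - 1 = (u ^ 2 ^ j - v ^ 2 ^ j) + (v ^ 2 ^ j - 1) := by ring
  rw [h1]
  exact dvd_add (Dvd.dvd.trans h (sub_dvd_pow_sub_pow u v _)) hj

private theorem dvd_l (f : ℕ) {N : ℕ} (hN : 1 ≤ N) :
    ((2 * f : ℕ) : OO k t) ∣ ((f * 2 ^ N : ℕ) : OO k t) := by
  refine Nat.cast_dvd_cast ?_
  rw [mul_comm]
  exact mul_dvd_mul_left f (dvd_pow_self 2 (by omega))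

private theorem dvd_r (f N : ℕ) : ((2 ^ N : ℕ) : OO k t) ∣ ((f * 2 ^ N : ℕ) : OO k t) :=
  Nat.cast_dvd_cast (dvd_mul_left _ _)

private theorem hcongrN (f : ℕ) {N : ℕ} (hN : 1 ≤ N) (v u : OO k t)
    (h : ((f * 2 ^ N : ℕ) : OO k t) ∣ u - v) (hv : HN f N v) : HN f N u := by
  refine ⟨hcongr f v u ((dvd_l f hN).trans h) hv.1, ?_⟩
  have h3 := nmod2 u v N ((dvd_r f N).trans h)
  rcases hv.2 with h4 | h4
  · left
    have : Nm u - 1 = (Nm u - Nm v) + (Nm v - 1) := by ring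
    rw [this]
    exact dvd_add h3 h4
  · right
    have : Nm u + 1 = (Nm u - Nm v) + (Nm v + 1) := by ring
    rw [this]
    exact dvd_add h3 h4

private theorem hone (f : ℕ) : Hf f (1 : OO k t) := by
  refine ⟨cop_one _, 0, ?_⟩
  rw [one_pow, sub_self]
  exact dvd_zero _

private theorem hneg (f : ℕ) : Hf f (-1 : OO k t) := by
  refine ⟨cop_neg (cop_one _), 1, ?_⟩
  rw [pow_one, neg_one_sq, sub_self]
  exact dvd_zero _

private theorem hinv (f : ℕ) (v u : OO k t) (hv : Hf f v)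
    (h : ((2 * f : ℕ) : OO k t) ∣ v * u - 1) : Hf f u := by
  obtain ⟨hv1, j, hj⟩ := hv
  refine ⟨?_, j, ?_⟩
  · have h1 : Cop (v * u) (2 * f) := cop_congr (neg_dvd h) (cop_one _)
    unfold Cop at h1 ⊢
    rw [Nm_mul] at h1
    exact (IsCoprime.mul_left_iff.1 h1).2
  · have h1 : u ^ 2 ^ j - 1 = ((v * u) ^ 2 ^ j - 1) - (v ^ 2 ^ j - 1) * u ^ 2 ^ j := by
      rw [mul_pow]
      ring
    rw [h1]
    exact dvd_sub (pw_one _ h) (Dvd.dvd.mul_right hj _)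

private theorem hinvN (f : ℕ) {N : ℕ} (hN : 1 ≤ N) (v u : OO k t) (hv : HN f N v)
    (h : ((f * 2 ^ N : ℕ) : OO k t) ∣ v * u - 1) : HN f N u := by
  refine ⟨hinv f v u hv.1 ((dvd_l f hN).trans h), ?_⟩
  have h1 := nmod2 (v * u) 1 N ((dvd_r f N).trans h)
  rw [Nm_mul, Nm_one] at h1
  exact pm_inv hv.2 h1

private theorem hcopN (f N : ℕ) (v : OO k t) (hv : HN f N v) : Cop v (f * 2 ^ N) := by
  have h0 : IsCoprime (Nm v) (f : ℤ) := cop_dvd hv.1.1 (dvd_mul_left f 2)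
  unfold Cop
  push_cast
  refine IsCoprime.mul_right h0 ?_
  rcases hv.2 with ⟨y, hy⟩ | ⟨y, hy⟩
  · exact ⟨1, -y, by linear_combination hy⟩
  · exact ⟨-1, y, by linear_combination -hy⟩

theorem tHNf : S_HNf := by
  intro _ k t _ f N hN
  refine ⟨⟨hone f, hneg f, ⟨hone f, Or.inl ?_⟩, ⟨hneg f, Or.inl ?_⟩⟩, hmul f, hmulN f N,
    fun v u h hv => hcongr f v u h hv, fun v u h hv => hcongrN f hN v u h hv,
    fun v u hv h => hinv f v u hv h, fun v u hv h => hinvN f hN v u hv h,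
    fun v hv => hv.1, fun v hv => hcopN f N v hv, fun v hv => ⟨hv.1, ?_⟩,
    fun v _ hc h => ⟨hc, 0, by rw [pow_zero, pow_one]; exact h⟩⟩
  · rw [Nm_one, sub_self]
    exact dvd_zero _
  · rw [nmneg, sub_self]
    exact dvd_zero _
  · have h2 : (2 : ℤ) ^ N ∣ 2 ^ (N + 1) := pow_dvd_pow _ (Nat.le_succ N)
    exact hv.2.imp (fun h => h2.trans h) (fun h => h2.trans h)

end Pool.Agent.DS.G
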