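import Pool.Agent.Lib.DS.G.Spec

/-!
# DS, part G, module NQ: the points `h/(f 2^N) + u` are not primary
-/

set_option autoImplicit false

open scoped Pointwise

noncomputable section

namespace Pool.Agent.DS.G

open Pool.Agent.MuZ Pool.Agent.FW Pool.Agent.DN
open Pool.Agent.DI (io ofC io_inj exists_io io_ofC ofC_io VP MP UP TP ex sqr sqr_sq kap)

variable {k t : ℕ}

/-- The core: `M = A B`, `A` is not in `Q`. -/
private theorem NQ_core [SqN k t] (hL6 : S_L6) {A B : ℕ} (hA : 0 < A) (hB : 0 < B)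
    {m b : Ideal (OO k t)} (hb0 : b ≠ ⊥) (hb : PrI b A) {Q : Ideal ZZ} (hAQ : ¬ MP Q (A : Om))
    {μ h : OO k t} (hμ : μ ∈ m) (hμh : ¬ (A : OO k t) ∣ μ * h) {u : ℂ} (hu : u ∈ Lam (m * b)) :
    ¬ Qp Q b (toC h / (A * B : ℕ) + u) := by
  intro hq
  have hA0 : (A : ℂ) ≠ 0 := by exact_mod_cast hA.ne'
  have hB0 : (B : ℂ) ≠ 0 := by exact_mod_cast hB.ne'
  have hα : ¬ MP Q (toO (A : OO k t)) := by
    rw [toO_nat]
    exact hAQ
  have e1 : toC ((A : OO k t) * ((B : OO k t) * μ)) * (toC h / (A * B : ℕ) + u) =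
      toC (μ * h) + toC ((A : OO k t) * (B : OO k t)) * (toC μ * u) := by
    rw [toC_mul, toC_mul, toC_mul, toC_mul, toC_nat, toC_nat]
    push_cast
    field_simp
  have h1 : toC ((A : OO k t) * ((B : OO k t) * μ)) * (toC h / (A * B : ℕ) + u) ∈ Lam b := by
    rw [e1]
    exact lam_add (lam_anti le_top (lam_top.2 ⟨_, rfl⟩)) (lam_mul _ (lam_prod.1 hu μ hμ))
  have h2 := hq (A : OO k t) ((B : OO k t) * μ) hα h1
  have e2 : toC ((B : OO k t) * μ) * (toC h / (A * B : ℕ) + u) =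
      toC (μ * h) / (A : ℂ) + toC (B : OO k t) * (toC μ * u) := by
    rw [toC_mul, toC_mul, toC_nat]
    push_cast
    field_simp
  rw [e2] at h2
  have h3 : toC (μ * h) / (A : ℂ) ∈ Lam b := by
    have h4 := lam_sub h2 (lam_mul (B : OO k t) (lam_prod.1 hu μ hμ))
    rwa [add_sub_cancel_right] at h4
  exact hμh ((hL6.1 k t b A hb0 hA hb (μ * h)).1 h3)

/-- **NQ.** The points `h/(f 2^N) + u` are not primary. -/
theorem tNQ : S_NQ := by
  intro hO6 hL6 hCop k t _ f N m b hy hN hb0 hb Q hQ h hh u hu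
  have := hQ.1
  obtain ⟨c1, c2, c3, c4, c5, c6, -, -, -⟩ := hCop k t
  obtain ⟨o1, o2, o3, o4, o5⟩ := hO6 k t
  have hf0 : 0 < f := hy.odd.pos
  have hf15 : 15 ≤ f := Nat.le_of_dvd hf0 hy.fif
  have hb2 : PrI b 2 := ((o2 _ _ _).1 hb).1
  have hbf : PrI b f := ((o2 _ _ _).1 hb).2
  obtain ⟨hh2, hhf⟩ := (c2 h 2 f).1 hh
  have key : ¬ Qp Q b (toC h / (f * 2 ^ N : ℕ) + u) := by
    by_cases h2 : MP Q (2 : Om)
    · obtain ⟨μ, hμ, hμ0, hμ1⟩ := o5 f m hf0 hy.ne hy.cop
      refine NQ_core hL6 hf0 (by positivity) hb0 hbf ?_ hμ ?_ hu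
      · intro hfQ
        obtain ⟨j, hj⟩ := hy.odd
        refine DI.MP.one_not (P := Q) ?_
        have e : (1 : Om) = (f : Om) - (j : Om) * 2 := by
          rw [hj]
          push_cast
          ring
        rw [e]
        refine hfQ.sub (DI.MP.mul_left (DI.VP.integral ?_) h2)
        simpa using isIntegral_algebraMap (R := ℤ) (A := Om) (x := (j : ℤ))
      · intro h3
        have h4 : (f : OO k t) ∣ h := by
          have e : h = μ * h - (μ - 1) * h := by ring
          rw [e]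
          exact dvd_sub h3 (Dvd.dvd.mul_right hμ1 h)
        have h5 : (f : OO k t) ∣ 1 := c6 h 1 f hhf (by rwa [mul_one])
        rw [nat_dvd_iff] at h5
        have h6 := h5.1
        rw [re_one] at h6
        have h7 := Int.le_of_dvd one_pos h6
        have : (15 : ℤ) ≤ f := by exact_mod_cast hf15
        omega
    · obtain ⟨μ, hμ, hμ0, hμ1⟩ := o5 2 m two_pos hy.ne hy.two
      have e0 : (f * 2 ^ N : ℕ) = (2 ^ N * f : ℕ) := by ring
      rw [e0]
      have hb2N : PrI b (2 ^ N) := by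
        rw [o3 (2 ^ N) b (by positivity)]
        exact Nat.Coprime.pow_right N ((o3 2 b two_pos).1 hb2)
      refine NQ_core hL6 (by positivity) hf0 hb0 hb2N ?_ hμ ?_ hu
      · intro h3
        push_cast at h3
        exact h2 (DI.MP.of_pow h3)
      · intro h3
        have h4 : Cop (μ * h) 2 := by
          refine cop_mul ?_ hh2
          refine cop_congr (a := 1) ?_ (cop_one 2)
          rw [← neg_sub]
          exact (dvd_neg).2 hμ1
        refine c4 _ h4 (Dvd.dvd.trans ?_ h3)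
        obtain ⟨j, rfl⟩ : ∃ j, N = j + 1 := ⟨N - 1, by omega⟩
        exact ⟨(2 : OO k t) ^ j, by push_cast; ring⟩
  exact ⟨key, fun hz => key fun α β _ _ => lam_mul β hz⟩

end Pool.Agent.DS.G
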