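import Pool.Agent.Lib.DS.G.Spec

/-!
# DS, part G, module RayF: homogeneous functions depend only on the ray class
-/

set_option autoImplicit false

open scoped Pointwise

noncomputable section

namespace Pool.Agent.DS.G

open Pool.Agent.MuZ Pool.Agent.FW Pool.Agent.DN

variable {k t : ℕ}

private theorem RayF_one [SqN k t] {M : ℕ} {A : Type} (F : Ideal (OO k t) → ℂ → A) (hM : 0 < M)
    (hp : ∀ (b : Ideal (OO k t)) (z l : ℂ), G15 b → l ∈ Lam b → F b (z + l) = F b z)
    {b : Ideal (OO k t)} (hb : G15 b) {γ : OO k t} (hγ : (M : OO k t) ∣ γ - 1) (h : OO k t) :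
    F b (toC γ * (toC h / M)) = F b (toC h / M) := by
  obtain ⟨c, hc⟩ := hγ
  have hM' : (M : ℂ) ≠ 0 := by exact_mod_cast hM.ne'
  have e : toC γ * (toC h / M) = toC h / M + toC (h * c) := by
    have e1 : γ = 1 + M * c := by rw [← hc]; ring
    rw [e1, toC_add, toC_one, toC_mul, toC_nat, toC_mul]
    field_simp
  rw [e]
  exact hp b _ _ hb (by
    have h1 : toC (h * c) ∈ Lam (⊤ : Ideal (OO k t)) := lam_top.2 ⟨_, rfl⟩
    exact lam_anti le_top h1)

theorem tRayF : S_RayF := by
  intro hC k t _ M A F hM h15 hh hp b b' hb hb' hR h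
  obtain ⟨α, α', hα, hα', hc, hc', hd, he⟩ := hR
  obtain ⟨-, -, -, -, hinv, -⟩ := hC k t
  obtain ⟨β, hβ, hβc, h1⟩ := hinv α M hM hc
  have h2 : (M : OO k t) ∣ α' * β - 1 := by
    have e : α' * β - 1 = (α * β - 1) - (α - α') * β := by ring
    rw [e]
    exact dvd_sub h1 (hd.mul_right β)
  have h3 : sp (α * β) * b = sp (α' * β) * b' := by
    have e1 : ∀ x : OO k t, sp (x * β) = sp β * sp x := by
      intro x
      unfold sp
      rw [Ideal.span_singleton_mul_span_singleton, mul_comm x β]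
    rw [e1, e1, mul_assoc, mul_assoc]
    unfold sp
    rw [he]
  have hT : Tor k t (toC h / M) := tor_div hM h
  have h4 := hh b (α * β) (toC h / M) hb (mul_ne_zero hα hβ)
    (cop_dvd (cop_mul hc hβc) h15) hT
  have h5 := hh b' (α' * β) (toC h / M) hb' (mul_ne_zero hα' hβ)
    (cop_dvd (cop_mul hc' hβc) h15) hT
  rw [h3] at h4
  rw [h4] at h5
  rw [RayF_one F hM hp hb h1 h, RayF_one F hM hp hb' h2 h] at h5
  exact h5

end Pool.Agent.DS.G
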