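import Pool.Agent.Lib.DS.G.Spec

/-!
# DS, part G, module Rp: systems of representatives
-/

set_option autoImplicit false

open scoped Pointwise

noncomputable section

namespace Pool.Agent.DS.G

open Pool.Agent.MuZ Pool.Agent.FW Pool.Agent.DN
open Pool.Agent.DI (io ofC io_inj exists_io io_ofC ofC_io VP MP UP TP ex)

variable {k t : ℕ}

private theorem Rp_one (M : ℕ) (H : OO k t → Prop) (T T' : Finset (OO k t)) (A : Type) [CommMonoid A]
    (F : OO k t → A) (hT : IsRp M H T) (hT' : IsRp M H T')
    (h1 : ∀ v u : OO k t, H v → H u → UR (M : OO k t) v u → F v = F u) :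
    ∏ h ∈ T, F h = ∏ h ∈ T', F h := by
  have hex : ∀ h ∈ T, ∃ h' ∈ T', UR (M : OO k t) h h' := fun h hh => hT'.ex h (hT.mem h hh)
  choose e he hr using hex
  refine Finset.prod_bij e he ?_ ?_ ?_
  · intro x hx y hy hxy
    have r1 := hr x hx
    rw [hxy] at r1
    exact hT.uni x hx y hy (r1.trans (hr y hy).symm)
  · intro b hb
    obtain ⟨x, hx, hbx⟩ := hT.ex b (hT'.mem b hb)
    refine ⟨x, hx, ?_⟩
    exact (hT'.uni b hb (e x hx) (he x hx) (hbx.trans (hr x hx))).symm
  · intro x hx
    exact h1 _ _ (hT.mem x hx) (hT'.mem _ (he x hx)) (hr x hx)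

/-- **Rp.** Products over two systems of representatives; multiplication by an invertible
element. -/
theorem tRp : S_Rp := by
  classical
  intro k t _
  refine ⟨Rp_one, ?_⟩
  intro m H T A _ G a b hT hab hHa hHb h1
  have key : ∀ x y : OO k t, UR (m : OO k t) (a * x) (a * y) → UR (m : OO k t) x y := by
    rintro x y ⟨e, he, h⟩
    refine ⟨e, he, ?_⟩
    have h3 : x - e * y = b * (a * x - e * (a * y)) - (a * b - 1) * (x - e * y) := by ring
    rw [h3]
    exact dvd_sub (Dvd.dvd.mul_left h _) (Dvd.dvd.mul_right hab _)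
  have hinj : Set.InjOn (fun x : OO k t => a * x) (T : Set (OO k t)) := by
    intro x hx y hy hxy
    have hxy' : a * x = a * y := hxy
    refine hT.uni x hx y hy (key x y ?_)
    rw [hxy']
    exact UR.refl _ _
  have hT2 : IsRp m H (T.image fun x => a * x) := by
    refine ⟨?_, ?_, ?_⟩
    · intro h hh
      obtain ⟨x, hx, rfl⟩ := Finset.mem_image.mp hh
      exact hHa x (hT.mem x hx)
    · intro v hv
      obtain ⟨x, hx, e, he, hr⟩ := hT.ex (b * v) (hHb v hv)
      refine ⟨a * x, Finset.mem_image_of_mem _ hx, e, he, ?_⟩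
      have h3 : v - e * (a * x) = a * (b * v - e * x) - (a * b - 1) * v := by ring
      rw [h3]
      exact dvd_sub (Dvd.dvd.mul_left hr _) (Dvd.dvd.mul_right hab _)
    · intro h hh h' hh' hr
      obtain ⟨x, hx, rfl⟩ := Finset.mem_image.mp hh
      obtain ⟨y, hy, rfl⟩ := Finset.mem_image.mp hh'
      have h3 := hT.uni x hx y hy (key x y hr)
      rw [h3]
  rw [← Rp_one m H _ T A G hT2 hT h1, Finset.prod_image hinj]

end Pool.Agent.DS.G
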