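import Pool.Agent.Lib.DS.G.Spec

/-!
# DS, part G, module UBa: elliptic units, first properties
-/

set_option autoImplicit false

open scoped Pointwise

noncomputable section

namespace Pool.Agent.DS.G

open Pool.Agent.MuZ Pool.Agent.FW Pool.Agent.DN
open Pool.Agent.DI (io ofC io_inj exists_io io_ofC ofC_io VP MP UP TP ex sqr sqr_sq kap)

variable {k t : ℕ}

/-- The values of an even function on `ℂ / Lam b` at the points `t / M` are periodic modulo `M`. -/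
private theorem UBa_per [SqN k t] {m b : Ideal (OO k t)} {M : ℕ} (hM : 0 < M)
    (hl : ∀ z : ℂ, ∀ l ∈ Lam b, Theta m b (z + l) = Theta m b z) {v u : OO k t}
    (h : (M : OO k t) ∣ v - u) : Theta m b (toC v / M) = Theta m b (toC u / M) := by
  obtain ⟨c, hc⟩ := h
  have hM' : (M : ℂ) ≠ 0 := by exact_mod_cast hM.ne'
  have hv : v = u + M * c := by rw [← hc]; ring
  have e : toC v / (M : ℂ) = toC u / M + toC c := by
    rw [hv, toC_add, toC_mul, toC_nat]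
    field_simp
  have hcl : toC c ∈ Lam b := by
    have h1 : toC c ∈ Lam (b * (⊤ : Ideal (OO k t))) := lam_mono (lam_top.2 ⟨c, rfl⟩)
    rwa [Ideal.mul_top] at h1
  rw [e]
  exact hl _ _ hcl

/-- Units of `O`. -/
private theorem UBa_unit [SqN k t] {m b : Ideal (OO k t)} {M : ℕ} (hM : 0 < M)
    (h3 : ∀ (α : OO k t) (z : ℂ), α ≠ 0 → Cop α 15 → Tor k t z →
      Theta m (sp α * b) z = Theta m b (toC α * z)) {e : OO k t} (he : Nm e = 1) (v : OO k t) :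
    Theta m b (toC (e * v) / M) = Theta m b (toC v / M) := by
  have he0 : e ≠ 0 := by
    rintro rfl
    rw [Nm_zero] at he
    exact zero_ne_one he
  have hc : Cop e 15 := by
    unfold Cop
    rw [he]
    exact isCoprime_one_left
  have h1 : sp e = ⊤ := Ideal.span_singleton_eq_top.2 (isUnit_iff_exists_inv.2 ⟨cjO e, (unit_inv he).1⟩)
  have h2 := h3 e (toC v / M) he0 hc (tor_div hM v)
  rw [h1, Ideal.top_mul] at h2
  rw [h2, toC_mul, mul_div_assoc]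

/-- The points `h / M` are not in `Lam (m b)`. -/
private theorem UBa_not (h6 : S_O6) (hC : C_Cop) [SqN k t] {c : Ideal (OO k t)} (hc : c ≠ ⊥)
    (hc2 : PrI c 2) {f N : ℕ} (hf : 0 < f) (hN : 1 ≤ N) {h : OO k t} (hh : Cop h 2) :
    toC h / (f * 2 ^ N : ℕ) ∉ Lam c := by
  intro hz
  obtain ⟨x, hx, _, hx1⟩ := (h6 k t).2.2.2.2 2 c two_pos hc hc2
  have hxc : Cop x 2 := by
    apply cop_congr (a := 1) _ (cop_one 2)
    have h1 : (1 : OO k t) - x = -(x - 1) := by ring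
    rw [h1]
    exact (dvd_neg).2 hx1
  obtain ⟨u, hu⟩ := hz x hx
  have hM : ((f * 2 ^ N : ℕ) : ℂ) ≠ 0 := by
    have : f * 2 ^ N ≠ 0 := by positivity
    exact_mod_cast this
  have e : x * h = ((f * 2 ^ N : ℕ) : OO k t) * u := by
    apply toC_inj
    rw [toC_mul, toC_mul, toC_nat, ← hu]
    field_simp
  have hxh : Cop (x * h) 2 := cop_mul hxc hh
  have h2 : ¬ (2 : ℤ) ∣ Nm (x * h) := (hC k t).2.2.1 _ |>.1 hxh
  apply h2
  have h3 : ((2 : ℕ) : OO k t) ∣ x * h := by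
    rw [e]
    apply Dvd.dvd.mul_right
    have h4 : (2 : ℕ) ∣ f * 2 ^ N := Dvd.dvd.mul_left (dvd_pow_self 2 (by omega)) f
    exact_mod_cast Nat.cast_dvd_cast h4
  have h5 := Nm_dvd h3
  rw [Nm_nat] at h5
  exact dvd_trans ⟨2, by norm_num⟩ h5

/-- Elliptic units: units, class function. -/
theorem tUBa : S_UBa := by
  intro h6 h7 hD5 hD8 hC hH hRp hRF hNQ k t _ f m N T hy hN hT b hb hb2f
  have hf0 : 0 < f := hy.odd.pos
  have hM : 0 < f * 2 ^ N := by positivity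
  have h15M : 15 ∣ f * 2 ^ N := Dvd.dvd.mul_right hy.fif _
  obtain ⟨o1, o2, _, o4, _⟩ := h6 k t
  have hdown : ∀ (a : Ideal (OO k t)) (M M' : ℕ), M' ∣ M → PrI a M → PrI a M' := by
    rintro a M M' ⟨j, rfl⟩ ha
    exact ((o2 M' j a).1 ha).1
  have h15f : 15 ∣ 2 * f := Dvd.dvd.mul_left hy.fif 2
  have hm15 : PrI m 15 := hdown m f 15 hy.fif hy.cop
  have hg15 : ∀ a : Ideal (OO k t), a ≠ ⊥ → PrI a (2 * f) → G15 a := fun a h1 h2 =>
    ⟨h1, hdown a (2 * f) 15 h15f h2⟩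
  have hb2 : PrI b 2 := ((o2 2 f b).1 hb2f).1
  have hGb : G15 b := hg15 b hb hb2f
  have hmem := hT.mem
  have hmb : m * b ≠ ⊥ := mul_ne_zero hy.ne hb
  have hmb2 : PrI (m * b) 2 := (o1 2 m b).2 ⟨hy.two, hb2⟩
  obtain ⟨c1, c2, c3, c4, c5, c6, c7, c8, c9⟩ := hC k t
  have hcop2f : ∀ h ∈ T, Cop h (2 * f) := fun h hh => (hmem h hh).1.1
  have hcop2 : ∀ h ∈ T, Cop h 2 := fun h hh => ((c2 h 2 f).1 (hcop2f h hh)).1
  obtain ⟨⟨_, _, _, n1⟩, _, n3, _, n5, _, n7, _, n9, _⟩ := hH k t f N hN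
  -- class function
  have hclass : ∀ b1 b2 : Ideal (OO k t), G15 b1 → Ray (f * 2 ^ N) b1 b2 →
      uN f N m T b2 = uN f N m T b1 := by
    intro b1 b2 hb1 hR
    have hb2' : G15 b2 := by
      refine ⟨((h7 k t (f * 2 ^ N) hM).2.2.2.2.2.1 b1 b2 hR).1.1 hb1.ne, ?_⟩
      have hR15 : Ray 15 b1 b2 := (h7 k t (f * 2 ^ N) hM).2.2.2.2.2.2.1 15 b1 b2 h15M hR
      exact ((h7 k t 15 (by norm_num)).2.2.2.2.2.1 b1 b2 hR15).2.1 hb1.cop
    unfold uN
    refine Finset.prod_congr rfl fun h _ => ?_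
    exact (hRF k t (f * 2 ^ N) Om (fun b z => Theta m b z) hM h15M
      (fun b α z hb hα hα15 hz => (hD8 k t m b hy.ne hb hy.two hm15).2.2.1 α z hα hα15 hz)
      (fun b z l hb hl => ((hD8 k t m b hy.ne hb hy.two hm15).2.1 z).2 l hl) b1 b2 hb1 hb2' hR h).symm
  have hmul : ∀ v : OO k t, v ≠ 0 → Cop v (2 * f) →
      uN f N m T (sp v * b) = ∏ h ∈ T, Theta m b (toC (v * h) / (f * 2 ^ N : ℕ)) := by
    intro v hv hvc
    unfold uN
    refine Finset.prod_congr rfl fun h _ => ?_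
    rw [(hD8 k t m b hy.ne hGb hy.two hm15).2.2.1 v _ hv (cop_dvd hvc h15f) (tor_div hM h), toC_mul,
      mul_div_assoc]
  have hper : ∀ v u : OO k t, HN f N v → HN f N u → UR ((f * 2 ^ N : ℕ) : OO k t) v u →
      Theta m b (toC v / (f * 2 ^ N : ℕ)) = Theta m b (toC u / (f * 2 ^ N : ℕ)) := by
    rintro v u _ _ ⟨e, he, h⟩
    rw [UBa_per hM (fun z => ((hD8 k t m b hy.ne hGb hy.two hm15).2.1 z).2) h,
      UBa_unit hM (hD8 k t m b hy.ne hGb hy.two hm15).2.2.1 he]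
  refine ⟨?_, ?_, fun b' hR => hclass b b' hGb hR, hmul, ?_, ?_⟩
  · unfold uN
    apply Finset.prod_ne_zero_iff.2
    intro h hh
    exact (hD8 k t m b hy.ne hGb hy.two hm15).2.2.2 _ (tor_div hM h)
      (UBa_not h6 hC hmb hmb2 hf0 hN (hcop2 h hh))
  · intro Q hQ
    have := hQ.1
    unfold uN
    refine DI.UP.prod _ _ fun h hh => ?_
    exact hD5 k t m b hy.ne hGb hy.two hm15 Q hQ _ (tor_div hM h)
      (fun u hu => (hNQ k t f N m b hy hN hb hb2f Q hQ h (hcop2f h hh) u hu).1)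
  · rintro a ⟨v, hv0, hv, hR⟩
    have hvc : Cop v (2 * f) := hv.1.1
    have hvb : sp v * b ≠ ⊥ := mul_ne_zero (fun h => hv0 (Ideal.span_singleton_eq_bot.1 h)) hb
    have hvb2 : PrI (sp v * b) (2 * f) :=
      (o1 (2 * f) (sp v) b).2 ⟨(o4 (2 * f) v (by positivity)).2 hvc, hb2f⟩
    obtain ⟨r1, r2, _, r4, _⟩ := h7 k t (f * 2 ^ N) hM
    rw [hclass (sp v * b) (a * b) (hg15 _ hvb hvb2) (r4 _ _ _ _ (r2 _ _ hR) (r1 b)), hmul v hv0 hvc]
    obtain ⟨v', _, hv'c, hvv'⟩ := c5 v (f * 2 ^ N) hM (n9 v hv)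
    have hv'N : HN f N v' := n7 v v' hv hvv'
    exact (hRp k t).2 (f * 2 ^ N) (fun v => HN f N v) T Om
      (fun t => Theta m b (toC t / (f * 2 ^ N : ℕ))) v v' (isRep_iff.1 hT) hvv'
      (fun w hw => n3 _ _ hv hw) (fun w hw => n3 _ _ hv'N hw) hper
  · intro T' hT''
    exact (hRp k t).1 (f * 2 ^ N) (fun v => HN f N v) T' T Om
      (fun t => Theta m b (toC t / (f * 2 ^ N : ℕ))) (isRep_iff.1 hT'') (isRep_iff.1 hT) hper

end Pool.Agent.DS.G
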