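import Pool.Agent.Lib.DN.O.All
import Pool.Agent.Lib.DS.G.Cop
import Pool.Agent.Lib.DS.G.DSx
import Pool.Agent.Lib.DS.G.G3m
import Pool.Agent.Lib.DS.G.GMm
import Pool.Agent.Lib.DS.G.GRm
import Pool.Agent.Lib.DS.G.HNf
import Pool.Agent.Lib.DS.G.HPg
import Pool.Agent.Lib.DS.G.NQ
import Pool.Agent.Lib.DS.G.R2
import Pool.Agent.Lib.DS.G.RB
import Pool.Agent.Lib.DS.G.RD
import Pool.Agent.Lib.DS.G.RI
import Pool.Agent.Lib.DS.G.RUp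
import Pool.Agent.Lib.DS.G.RayF
import Pool.Agent.Lib.DS.G.Rp
import Pool.Agent.Lib.DS.G.TEv
import Pool.Agent.Lib.DS.G.TwR
import Pool.Agent.Lib.DS.G.Two
import Pool.Agent.Lib.DS.G.UBa
import Pool.Agent.Lib.DS.G.UBb

/-!
# Elliptic units for all imaginary quadratic fields: assembly (author helper21)

`aGR : S_GR` (no hypotheses), `aGM (E1) (E6) (E8) : S_GM`, `aG3 (D5) (D7) (D8) (E1) (E10) : S_G3`; without hypotheses: `aCop`, `aHNf`,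
`aRUp`, `aRI`, `aR2`, `aRB`, `aRD`, `aRp`, `aTEv`, `aTwR`, `aRayF`, `aNQ`, `aHPg`, `aDSx`.
-/

set_option autoImplicit false

noncomputable section

namespace Pool.Agent.DS.G

open Pool.Agent.MuZ Pool.Agent.FW Pool.Agent.DN

theorem aCop : C_Cop := tCop
theorem aHNf : C_HNf := tHNf aCop
theorem aRp : C_Rp := tRp
theorem aTEv : C_TEv := tTEv aO7 aCop aHNf
theorem aTwR : C_TwR := tTwR aO7 aCop aHNf
theorem aRUp : C_RUp := tRUp aO6 aCop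
theorem aRI : C_RI := tRI aO7
theorem aR2 : C_R2 := tR2 aO6 aO7 aO8 aRI
theorem aRB : C_RB := tRB aO2 aO6 aO7 aO9 aCop aRUp
theorem aRD : C_RD := tRD aO2 aO6 aO7 aO9 aCop aHNf aRUp
theorem aHPg : C_HPg := tHPg aO2 aO6 aO7 aO9 aCop aHNf aRUp
theorem aDSx : C_DSx := tDSx aO2 aO6 aO7 aO9 aCop aHNf aRUp
theorem aRayF : C_RayF := tRayF aCop
theorem aNQ : C_NQ := tNQ aO6 aL6 aCop

/-- **The systems of representatives exist.** -/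
theorem aGR : S_GR := tGRm aHNf

/-- **The fields.** -/
theorem aGM (e1 : S_E1) (e6 : S_E6) (e8 : S_E8) : S_GM := tGMm aO6 e1 e6 e8 aHPg

theorem aUBa (d5 : S_D5) (d8 : S_D8) : C_UBa := tUBa aO6 aO7 d5 d8 aCop aHNf aRp aRayF aNQ
theorem aUBb (d5 : S_D5) (d8 : S_D8) (e1 : S_E1) (e10 : S_E10) : C_UBb :=
  tUBb aO2 aO6 aO7 e1 e10 (aUBa d5 d8)
theorem aTwo (d5 : S_D5) (d7 : S_D7) (d8 : S_D8) (e1 : S_E1) (e10 : S_E10) : C_Two :=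
  tTwo aO6 aO7 d7 d8 aCop aHNf aRUp aRp aTEv aTwR aNQ (aUBa d5 d8) (aUBb d5 d8 e1 e10)

/-- **The elliptic units.** -/
theorem aG3 (d5 : S_D5) (d7 : S_D7) (d8 : S_D8) (e1 : S_E1) (e10 : S_E10) : S_G3 :=
  tG3m (aUBa d5 d8) (aUBb d5 d8 e1 e10) (aTwo d5 d7 d8 e1 e10)

end Pool.Agent.DS.G
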