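import Pool.Agent.Lib.DN.Base
import Pool.Agent.Lib.DN.Ded
import Pool.Agent.Lib.DN.O.All
import Pool.Agent.Lib.DS.IfaceG

/-!
# Elliptic units for ALL imaginary quadratic fields: statements of the modules (author helper21, after `DN/G/Spec.lean`)

`[SqN k t]` in place of `[Ine k t]`; representatives modulo the UNITS of `O` (`DS.IsRep`). `H_f`, `H_N`, `uN`, `Theta` of `DN`.
-/

set_option autoImplicit false

open scoped Pointwise

noncomputable section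

namespace Pool.Agent.DS.G

open Pool.Agent.MuZ Pool.Agent.FW Pool.Agent.DN
open Pool.Agent.DI (io ofC io_inj exists_io io_ofC ofC_io VP MP UP TP ex sqr sqr_sq kap)

variable {k t : ℕ}

/-! ## Definitions -/

/-- `β = 1 + f (x + y w)`. -/
def bt (k t f : ℕ) (x y : ℕ) : OO k t := ⟨1 + f * x, f * y⟩

/-- Equal up to a unit of `O`, modulo `m`. -/
def UR (m x y : OO k t) : Prop := ∃ e : OO k t, Nm e = 1 ∧ m ∣ x - e * y

/-- A set of representatives modulo `M` and the units of `O` for the elements with `H`. -/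
structure IsRp (M : ℕ) (H : OO k t → Prop) (T : Finset (OO k t)) : Prop where
  mem : ∀ h ∈ T, H h
  ex : ∀ v : OO k t, H v → ∃ h ∈ T, UR (M : OO k t) v h
  uni : ∀ h ∈ T, ∀ h' ∈ T, UR (M : OO k t) h h' → h = h'

theorem isRep_iff {f N : ℕ} {T : Finset (OO k t)} :
    IsRep f N T ↔ IsRp (f * 2 ^ N) (fun v => HN f N v) T :=
  ⟨fun h => ⟨h.mem, fun v hv => h.ex v hv, fun x hx y hy ⟨e, he, hd⟩ => h.uni x hx y hy e he hd⟩,
    fun h => ⟨h.mem, fun v h1 => h.ex v h1, fun x hx y hy e he hd => h.uni x hx y hy ⟨e, he, hd⟩⟩⟩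

/-- A set of representatives modulo `M` of the ray classes with `C`. -/
structure IsRI (M : ℕ) (C : Ideal (OO k t) → Prop) (B : Finset (Ideal (OO k t))) : Prop where
  mem : ∀ b ∈ B, C b
  ex : ∀ b : Ideal (OO k t), C b → ∃ b' ∈ B, Ray M b b'
  uni : ∀ b ∈ B, ∀ b' ∈ B, Ray M b b' → b = b'

/-- The ideals prime to `2 f` with norm `± 1` modulo `2 ^ N`. -/
def CN (f N : ℕ) (b : Ideal (OO k t)) : Prop :=
  b ≠ ⊥ ∧ PrI b (2 * f) ∧ ((2 : ℤ) ^ N ∣ (NI b : ℤ) - 1 ∨ (2 : ℤ) ^ N ∣ (NI b : ℤ) + 1)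

/-- `a` and `b` are `±` each other modulo `2 ^ N`. -/
def Pm (N : ℕ) (a b : ℤ) : Prop := (2 : ℤ) ^ N ∣ a - b ∨ (2 : ℤ) ^ N ∣ a + b

/-- The hypotheses on `f` and `m`. -/
structure Hy (f : ℕ) (m : Ideal (OO k t)) : Prop where
  odd : Odd f
  fif : 15 ∣ f
  ne : m ≠ ⊥
  two : PrI m 2
  cop : PrI m f

/-! ## Units -/

theorem unit_inv {e : OO k t} (he : Nm e = 1) : e * cjO e = 1 ∧ cjO e * e = 1 := by
  have h : e * cjO e = 1 := by
    rw [mul_cjO, he, Int.cast_one]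
  exact ⟨h, by rw [mul_comm]; exact h⟩

theorem UR.refl (m x : OO k t) : UR m x x := ⟨1, Nm_one, by rw [one_mul, sub_self]; exact dvd_zero _⟩

theorem UR.symm {m x y : OO k t} (h : UR m x y) : UR m y x := by
  obtain ⟨e, he, hd⟩ := h
  obtain ⟨-, h2⟩ := unit_inv he
  refine ⟨cjO e, by rw [Nm_cjO, he], ?_⟩
  have e1 : y - cjO e * x = -(cjO e * (x - e * y)) + (1 - cjO e * e) * y := by ring
  rw [e1, h2, sub_self, zero_mul, add_zero]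
  exact (dvd_neg).2 (hd.mul_left _)

theorem UR.trans {m x y z : OO k t} (h : UR m x y) (h' : UR m y z) : UR m x z := by
  obtain ⟨e, he, hd⟩ := h
  obtain ⟨e', he', hd'⟩ := h'
  refine ⟨e * e', by rw [Nm_mul, he, he', mul_one], ?_⟩
  have e1 : x - e * e' * z = (x - e * y) + e * (y - e' * z) := by ring
  rw [e1]
  exact dvd_add hd (hd'.mul_left _)

theorem UR.of_dvd {m x y : OO k t} (h : m ∣ x - y) : UR m x y := ⟨1, Nm_one, by rwa [one_mul]⟩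

theorem UR.mul {m x y : OO k t} (a : OO k t) (h : UR m x y) : UR m (a * x) (a * y) := by
  obtain ⟨e, he, hd⟩ := h
  refine ⟨e, he, ?_⟩
  have e1 : a * x - e * (a * y) = a * (x - e * y) := by ring
  rw [e1]
  exact hd.mul_left _

theorem UR.mono {m m' x y : OO k t} (h : UR m x y) (hm : m' ∣ m) : UR m' x y := by
  obtain ⟨e, he, hd⟩ := h
  exact ⟨e, he, hm.trans hd⟩

/-! ## 1. Elements of `O` -/

/-- Coprimality, inverses, odd lifts. -/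
def C_Cop : Prop :=
  ∀ (k t : ℕ) [SqN k t], (∀ (v u : OO k t) (M : ℕ), Cop (v * u) M ↔ Cop v M ∧ Cop u M) ∧
    (∀ (v : OO k t) (M M' : ℕ), Cop v (M * M') ↔ Cop v M ∧ Cop v M') ∧
    (∀ v : OO k t, Cop v 2 ↔ ¬ (2 : ℤ) ∣ Nm v) ∧ (∀ v : OO k t, Cop v 2 → ¬ (2 : OO k t) ∣ v) ∧
    (∀ (v : OO k t) (M : ℕ), 0 < M → Cop v M → ∃ u : OO k t, u ≠ 0 ∧ Cop u M ∧
      (M : OO k t) ∣ v * u - 1) ∧
    (∀ (v u : OO k t) (M : ℕ), Cop v M → (M : OO k t) ∣ v * u → (M : OO k t) ∣ u) ∧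
    (∀ (v : OO k t) (f : ℕ), Odd f → Cop v f →
      ∃ v' : OO k t, v' ≠ 0 ∧ (f : OO k t) ∣ v' - v ∧ (2 : OO k t) ∣ v' - 1 ∧ Cop v' (2 * f)) ∧
    (∀ (f N : ℕ) (v : OO k t), 1 ≤ N → Cop v (f * 2 ^ N) → Cop v (2 * f)) ∧
    ∀ (f N : ℕ) (v : OO k t), Cop v (2 * f) → Cop v (f * 2 ^ N)

/-- The groups `H_f`, `H_N`. -/
def C_HNf : Prop :=
  ∀ (k t : ℕ) [SqN k t] (f N : ℕ), 1 ≤ N →
    (Hf f (1 : OO k t) ∧ Hf f (-1 : OO k t) ∧ HN f N (1 : OO k t) ∧ HN f N (-1 : OO k t)) ∧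
    (∀ v u : OO k t, Hf f v → Hf f u → Hf f (v * u)) ∧
    (∀ v u : OO k t, HN f N v → HN f N u → HN f N (v * u)) ∧
    (∀ v u : OO k t, ((2 * f : ℕ) : OO k t) ∣ u - v → Hf f v → Hf f u) ∧
    (∀ v u : OO k t, ((f * 2 ^ N : ℕ) : OO k t) ∣ u - v → HN f N v → HN f N u) ∧
    (∀ v u : OO k t, Hf f v → ((2 * f : ℕ) : OO k t) ∣ v * u - 1 → Hf f u) ∧
    (∀ v u : OO k t, HN f N v → ((f * 2 ^ N : ℕ) : OO k t) ∣ v * u - 1 → HN f N u) ∧
    (∀ v : OO k t, Hf f v → Cop v (2 * f)) ∧ (∀ v : OO k t, HN f N v → Cop v (f * 2 ^ N)) ∧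
    (∀ v : OO k t, HN f (N + 1) v → HN f N v) ∧
    ∀ v : OO k t, v ≠ 0 → Cop v (2 * f) → ((2 * f : ℕ) : OO k t) ∣ v - 1 → Hf f v

/-- Products over two systems of representatives; multiplication by an invertible element. -/
def C_Rp : Prop :=
  ∀ (k t : ℕ) [SqN k t], (∀ (M : ℕ) (H : OO k t → Prop) (T T' : Finset (OO k t)) (A : Type)
    [CommMonoid A] (F : OO k t → A), IsRp M H T → IsRp M H T' →
    (∀ v u : OO k t, H v → H u → UR (M : OO k t) v u → F v = F u) → ∏ h ∈ T, F h = ∏ h ∈ T', F h) ∧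
  (∀ (M : ℕ) (H : OO k t → Prop) (T : Finset (OO k t)) (A : Type) [CommMonoid A]
    (F : OO k t → A) (a b : OO k t), IsRp M H T → (M : OO k t) ∣ a * b - 1 →
    (∀ v, H v → H (a * v)) → (∀ v, H v → H (b * v)) →
    (∀ v u : OO k t, H v → H u → UR (M : OO k t) v u → F v = F u) → ∏ h ∈ T, F (a * h) = ∏ h ∈ T, F h)

/-- The number of representatives is even. -/
def C_TEv : Prop :=
  ∀ (k t : ℕ) [SqN k t] (f N : ℕ) (T : Finset (OO k t)), Odd f → 15 ∣ f → 2 ≤ N → IsRep f N T →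
    Even T.card

/-- Two systems modulo `f 2^(N+1)` of the elements of `H_N`. -/
def C_TwR : Prop :=
  ∀ (k t : ℕ) [SqN k t] (f N : ℕ) (T T' : Finset (OO k t)) (a : OO k t), Odd f → 15 ∣ f → 2 ≤ N →
    IsRep f N T → IsRep f (N + 1) T' → HN f N a → ¬ HN f (N + 1) a →
    ∀ E : Finset (OO k t), E = {0, 1, wI k t, 1 + wI k t} →
    IsRp (f * 2 ^ (N + 1)) (fun v => HN f N v) (T' ∪ T'.image (fun h => a * h)) ∧
    Disjoint T' (T'.image (fun h => a * h)) ∧ Set.InjOn (fun h => a * h) (T' : Set (OO k t)) ∧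
    IsRp (f * 2 ^ (N + 1)) (fun v => HN f N v)
      ((T ×ˢ E).image (fun p => p.1 + (f * 2 ^ N : ℕ) * p.2)) ∧
    Set.InjOn (fun p : OO k t × OO k t => p.1 + (f * 2 ^ N : ℕ) * p.2)
      ((T ×ˢ E : Finset (OO k t × OO k t)) : Set (OO k t × OO k t))

/-! ## 2. Ray classes -/

/-- Lifting a ray equivalence to a larger modulus. -/
def C_RUp : Prop :=
  ∀ (k t : ℕ) [SqN k t] (f n : ℕ) (b b' : Ideal (OO k t)), 0 < f → 0 < n → b ≠ ⊥ → b' ≠ ⊥ →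
    PrI b (f * n) → PrI b' (f * n) → Ray f b' b →
    ∃ β : OO k t, β ≠ 0 ∧ (f : OO k t) ∣ β - 1 ∧ Cop β (f * n) ∧ Ray (f * n) b' (sp β * b)

/-- Sums over two systems of representatives of classes. -/
def C_RI : Prop :=
  ∀ (k t : ℕ) [SqN k t] (M : ℕ) (C : Ideal (OO k t) → Prop) (B B' : Finset (Ideal (OO k t))) (A : Type)
    [AddCommMonoid A] (F : Ideal (OO k t) → A), 0 < M → IsRI M C B → IsRI M C B' →
    (∀ b b' : Ideal (OO k t), C b → C b' → Ray M b b' → F b = F b') → ∑ b ∈ B, F b = ∑ b ∈ B', F b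

/-- Every class modulo `f` contains ideals prime to `n f`; sums over the classes; multiplication by `a`. -/
def C_R2 : Prop :=
  ∀ (k t : ℕ) [SqN k t] (f n : ℕ), 0 < f → 0 < n →
    (∃ R : Finset (Ideal (OO k t)), IsRC f R ∧ ∀ b ∈ R, PrI b (n * f)) ∧
    (∀ R R' : Finset (Ideal (OO k t)), IsRC f R → IsRC f R' → ∀ F : Ideal (OO k t) → Om,
      (∀ b b' : Ideal (OO k t), b ≠ ⊥ → PrI b f → b' ≠ ⊥ → PrI b' f → Ray f b b' → F b = F b') →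
      ∑ b ∈ R, F b = ∑ b ∈ R', F b) ∧
    ∀ R : Finset (Ideal (OO k t)), IsRC f R → ∀ a : Ideal (OO k t), a ≠ ⊥ → PrI a f →
      ∀ F : Ideal (OO k t) → Om,
      (∀ b b' : Ideal (OO k t), b ≠ ⊥ → PrI b f → b' ≠ ⊥ → PrI b' f → Ray f b b' → F b = F b') →
      ∑ b ∈ R, F (a * b) = ∑ b ∈ R, F b

/-- The classes modulo `f 2^N`, with norm `± 1` modulo `2^N`: the products `sp β * b`. -/
def C_RB : Prop :=
  ∀ (k t : ℕ) [SqN k t] (f N : ℕ) (R : Finset (Ideal (OO k t))), Odd f → 15 ∣ f → 1 ≤ N → IsRC f R →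
    (∀ b ∈ R, PrI b (2 * f)) → ∀ I : Finset (Ideal (OO k t) × ℕ × ℕ),
    (∀ p, p ∈ I ↔ p.1 ∈ R ∧ p.2.1 < 2 ^ N ∧ p.2.2 < 2 ^ N ∧
      Pm N (NI p.1 * Nm (bt k t f p.2.1 p.2.2)) 1) →
    Set.InjOn (fun p : Ideal (OO k t) × ℕ × ℕ => sp (bt k t f p.2.1 p.2.2) * p.1) (I : Set _) ∧
    ∀ B : Finset (Ideal (OO k t)), (B : Set (Ideal (OO k t))) =
      (fun p : Ideal (OO k t) × ℕ × ℕ => sp (bt k t f p.2.1 p.2.2) * p.1) '' (I : Set _) →
      IsRI (f * 2 ^ N) (CN f N) B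

/-- The classes modulo `f 2^N`, with norm `± 1` modulo `2^N`: the products `sp h * c`, `c` in a system `D` of representatives
modulo `H_f` of the classes with norm `± 1` modulo `2^N`. -/
def C_RD : Prop :=
  ∀ (k t : ℕ) [SqN k t] (f N : ℕ) (T : Finset (OO k t)) (D : Finset (Ideal (OO k t))), Odd f → 15 ∣ f →
    1 ≤ N → IsRep f N T → (∀ c ∈ D, CN f N c) →
    (∀ b : Ideal (OO k t), CN f N b → ∃ c ∈ D, ∃ a : Ideal (OO k t), HP f a ∧ Ray (2 * f) b (a * c)) →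
    (∀ c ∈ D, ∀ c' ∈ D, (∃ a : Ideal (OO k t), HP f a ∧ Ray (2 * f) c' (a * c)) → c = c') →
    Set.InjOn (fun p : Ideal (OO k t) × OO k t => sp p.2 * p.1)
      ((D ×ˢ T : Finset (Ideal (OO k t) × OO k t)) : Set _) ∧
    ∀ B : Finset (Ideal (OO k t)), (B : Set (Ideal (OO k t))) =
      (fun p : Ideal (OO k t) × OO k t => sp p.2 * p.1) ''
        ((D ×ˢ T : Finset (Ideal (OO k t) × OO k t)) : Set _) →
      IsRI (f * 2 ^ N) (CN f N) B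

/-- Systems of representatives modulo `H_f` of the classes with norm `± 1` modulo `2^N` exist. -/
def C_DSx : Prop :=
  ∀ (k t : ℕ) [SqN k t] (f N : ℕ), Odd f → 15 ∣ f → 1 ≤ N → ∃ D : Finset (Ideal (OO k t)),
    (∀ c ∈ D, CN f N c) ∧
    (∀ b : Ideal (OO k t), CN f N b → ∃ c ∈ D, ∃ a : Ideal (OO k t), HP f a ∧ Ray (2 * f) b (a * c)) ∧
    ∀ c ∈ D, ∀ c' ∈ D, (∃ a : Ideal (OO k t), HP f a ∧ Ray (2 * f) c' (a * c)) → c = c'

/-- The groups `HP`, `HPN`. -/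
def C_HPg : Prop :=
  ∀ (k t : ℕ) [SqN k t] (f : ℕ), Odd f → 15 ∣ f →
    (HP f (⊤ : Ideal (OO k t)) ∧ (∀ a : Ideal (OO k t), HP f a → a ≠ ⊥ ∧ PrI a (2 * f)) ∧
      (∀ a a' : Ideal (OO k t), HP f a → Ray (2 * f) a a' → HP f a') ∧
      ∀ a a' : Ideal (OO k t), HP f a → HP f a' → HP f (a * a')) ∧
    ∀ N : ℕ, 1 ≤ N → HPN f N (⊤ : Ideal (OO k t)) ∧
      (∀ a : Ideal (OO k t), HPN f N a → a ≠ ⊥ ∧ PrI a (f * 2 ^ N)) ∧
      (∀ a a' : Ideal (OO k t), HPN f N a → Ray (f * 2 ^ N) a a' → HPN f N a') ∧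
      (∀ a a' : Ideal (OO k t), HPN f N a → HPN f N a' → HPN f N (a * a')) ∧
      ∀ a : Ideal (OO k t), a ≠ ⊥ → PrI a (f * 2 ^ N) → (HPN f N a ↔ HP f a ∧
        ((2 : ℤ) ^ N ∣ (NI a : ℤ) - 1 ∨ (2 : ℤ) ^ N ∣ (NI a : ℤ) + 1))

/-! ## 3. Class functions, points which are not primary -/

/-- Homogeneous functions at points of order `M` depend only on the ray class modulo `M` (`15 ∣ M`). -/
def C_RayF : Prop :=
  ∀ (k t : ℕ) [SqN k t] (M : ℕ) (A : Type) (F : Ideal (OO k t) → ℂ → A), 0 < M → 15 ∣ M →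
    (∀ (b : Ideal (OO k t)) (α : OO k t) (z : ℂ), G15 b → α ≠ 0 → Cop α 15 → Tor k t z →
      F (sp α * b) z = F b (toC α * z)) →
    (∀ (b : Ideal (OO k t)) (z l : ℂ), G15 b → l ∈ Lam b → F b (z + l) = F b z) →
    ∀ b b' : Ideal (OO k t), G15 b → G15 b' → Ray M b b' → ∀ h : OO k t,
      F b (toC h / M) = F b' (toC h / M)

/-- The points `h/(f 2^N) + u`, `u ∈ E[m]`, are not primary. -/
def C_NQ : Prop :=
  ∀ (k t : ℕ) [SqN k t] (f N : ℕ) (m b : Ideal (OO k t)), Hy f m → 1 ≤ N → b ≠ ⊥ → PrI b (2 * f) →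
    ∀ Q : Ideal ZZ, Npr Q → ∀ h : OO k t, Cop h (2 * f) → ∀ u ∈ Lam (m * b),
      ¬ Qp Q b (toC h / (f * 2 ^ N : ℕ) + u) ∧ toC h / (f * 2 ^ N : ℕ) + u ∉ Lam b

/-! ## 4. The units -/

/-- The units: first properties. -/
def C_UBa : Prop :=
  ∀ (k t : ℕ) [SqN k t] (f : ℕ) (m : Ideal (OO k t)) (N : ℕ) (T : Finset (OO k t)), Hy f m → 1 ≤ N →
    IsRep f N T → ∀ b : Ideal (OO k t), b ≠ ⊥ → PrI b (2 * f) →
      uN f N m T b ≠ 0 ∧ (∀ Q : Ideal ZZ, Npr Q → UP Q (uN f N m T b)) ∧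
      (∀ b' : Ideal (OO k t), Ray (f * 2 ^ N) b b' → uN f N m T b' = uN f N m T b) ∧
      (∀ v : OO k t, v ≠ 0 → Cop v (2 * f) →
        uN f N m T (sp v * b) = ∏ h ∈ T, Theta m b (toC (v * h) / (f * 2 ^ N : ℕ))) ∧
      (∀ a : Ideal (OO k t), HPN f N a → uN f N m T (a * b) = uN f N m T b) ∧
      ∀ T' : Finset (OO k t), IsRep f N T' → uN f N m T' b = uN f N m T b

/-- The units: Galois action. -/
def C_UBb : Prop :=
  ∀ (k t : ℕ) [SqN k t] (f : ℕ) (m : Ideal (OO k t)) (N : ℕ) (T : Finset (OO k t)), Hy f m → 1 ≤ N →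
    IsRep f N T → ∀ b : Ideal (OO k t), b ≠ ⊥ → PrI b (2 * f) → uN f N m T b ∈ Mn k t f N ∧
      ∀ τ ∈ GK k t, ∀ a : Ideal (OO k t), Psi τ (f * 2 ^ N) a → τ (uN f N m T b) = uN f N m T (a * b)

/-- The norm relation. -/
def C_Two : Prop :=
  ∀ (k t : ℕ) [SqN k t] (f : ℕ) (m : Ideal (OO k t)) (N : ℕ) (T : Finset (OO k t)), Hy f m → 2 ≤ N →
    IsRep f N T → ∀ b : Ideal (OO k t), b ≠ ⊥ → PrI b (2 * f) → ∀ T' : Finset (OO k t),
    IsRep f (N + 1) T' → ∀ s ∈ GK k t, ∀ a : Ideal (OO k t), Psi s (f * 2 ^ (N + 1)) a → HPN f N a →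
      ¬ HPN f (N + 1) a → uN f (N + 1) m T' b * s (uN f (N + 1) m T' b) = uN f N m T b

/-! ## The implications -/

def S_Cop : Prop := C_Cop
def S_HNf : Prop := C_Cop → C_HNf
def S_Rp : Prop := C_Rp
def S_TEv : Prop := S_O7 → C_Cop → C_HNf → C_TEv
def S_TwR : Prop := S_O7 → C_Cop → C_HNf → C_TwR
def S_RUp : Prop := S_O6 → C_Cop → C_RUp
def S_RI : Prop := S_O7 → C_RI
def S_R2 : Prop := S_O6 → S_O7 → S_O8 → C_RI → C_R2
def S_RB : Prop := S_O2 → S_O6 → S_O7 → S_O9 → C_Cop → C_RUp → C_RB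
def S_RD : Prop := S_O2 → S_O6 → S_O7 → S_O9 → C_Cop → C_HNf → C_RUp → C_RD
def S_GRm : Prop := C_HNf → S_GR
def S_DSx : Prop := S_O2 → S_O6 → S_O7 → S_O9 → C_Cop → C_HNf → C_RUp → C_DSx
def S_HPg : Prop := S_O2 → S_O6 → S_O7 → S_O9 → C_Cop → C_HNf → C_RUp → C_HPg
def S_GMm : Prop := S_O6 → S_E1 → S_E6 → S_E8 → C_HPg → S_GM
def S_RayF : Prop := C_Cop → C_RayF
def S_NQ : Prop := S_O6 → S_L6 → C_Cop → C_NQ
def S_UBa : Prop := S_O6 → S_O7 → S_D5 → S_D8 → C_Cop → C_HNf → C_Rp → C_RayF → C_NQ → C_UBa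
def S_UBb : Prop := S_O2 → S_O6 → S_O7 → S_E1 → S_E10 → C_UBa → C_UBb
def S_Two : Prop :=
  S_O6 → S_O7 → S_D7 → S_D8 → C_Cop → C_HNf → C_RUp → C_Rp → C_TEv → C_TwR → C_NQ → C_UBa → C_UBb → C_Two
def S_G3m : Prop := C_UBa → C_UBb → C_Two → S_G3

end Pool.Agent.DS.G
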